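import Pool.Agent.H3.S2.Tg
import Pool.Agent.H19.SRF.CN2

/-!
# MP_70ba79_ag, THEOREM S, part 2: first reduction of the denominators (CND)
-/

set_option autoImplicit false

namespace Pool.Agent.H14.S2

open MvPolynomial SC Pool.Agent.H27.LV
open Pool.Agent.H84.SM (dp cr dt)
open Pool.Agent.H92.SF Pool.Agent.H3.SF Pool.Agent.H3.S2 Pool.Agent.H19.SRF

theorem pf_CND (hCNB : T_CNB) (hCNC : T_CNC) (hSF1 : T_SF1) (hSFW : T_SFW) (hCLS : T_CLS)
    (hVRI : T_VRI) (hNGD : T_NGD) (hDCF : T_DCF) : T_CND := by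
  intro k F _ _ _ _ _ u dd δ j0 c0 J hS m G sg S hm hC b h H hb hHh hH0 hdeg hint a
  obtain ⟨hHd, hui, hpi, -, -, hdl, -⟩ := hSF1 k F u dd δ j0 c0 J hS
  obtain ⟨hDat, hJg, hJH, -, -, -⟩ := hSFW k F u dd δ j0 c0 J hS m G hC.toCrw
  have hm0 : (m : F) ≠ 0 := by
    have : (m : F) = algebraMap k F m := by rw [map_natCast]
    rw [this, map_ne_zero]
    exact_mod_cast (by omega : m ≠ 0)
  have hG0 : G ≠ 0 := hC.ne
  obtain ⟨ι, hι⟩ : ∃ ι : Bb k u →+* F, ι = ((Bb k u).val : Bb k u →+* F) := ⟨_, rfl⟩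
  have hιv : ∀ x : Bb k u, ι x = (x : F) := fun x => by rw [hι]; rfl
  have hιi : Function.Injective ι := by
    intro x y hxy
    rw [hιv, hιv] at hxy
    exact Subtype.ext hxy
  obtain ⟨uB, huB⟩ : ∃ uB : Fin 3 → Bb k u, ∀ i, ι (uB i) = u i :=
    ⟨fun i => ⟨u i, hui i⟩, fun i => hιv _⟩
  obtain ⟨jB, hjB⟩ : ∃ jB : Bb k u, ι jB = aeval u J := ⟨⟨_, hpi J⟩, hιv _⟩
  obtain ⟨HB, hHB⟩ : ∃ HB : Bb k u, ι HB = aeval u H := ⟨⟨_, hpi H⟩, hιv _⟩
  obtain ⟨SB, hSB⟩ : ∃ SB : Bb k u, ι SB = aeval u S := ⟨⟨_, hpi S⟩, hιv _⟩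
  obtain ⟨Gb, hGb⟩ : ∃ Gb : Bb k u, ι Gb = G := ⟨⟨_, hC.itg⟩, hιv _⟩
  obtain ⟨GB, hGB⟩ : ∃ GB : Fin 3 → Bb k u, ∀ l, ι (GB l) = aeval u J * dd l G :=
    ⟨fun l => ⟨_, hJg l⟩, fun l => hιv _⟩
  obtain ⟨HH, hHH⟩ : ∃ HH : Fin 3 → Fin 3 → Bb k u, ∀ i j, ι (HH i j) =
      aeval u J ^ 3 * dd i (dd j G) := ⟨fun i j => ⟨_, hJH i j⟩, fun i j => hιv _⟩
  obtain ⟨B, hB⟩ := lift_coeff (Bb k u) (C (aeval u H / G) * bet u dd J G b) (fun a => by
    have h1 := hint a
    have e : coeff a (C (aeval u H / G) * bet u dd J G b) =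
        aeval u H * ((bet u dd J G b).coeff a / G) := by
      rw [coeff_C_mul]
      ring
    rw [e]
    exact h1)
  rw [← hι] at hB
  -- `B` is a cubic form
  have hgxh : ∀ i, (gx dd G i).IsHomogeneous 1 := by
    intro i
    unfold gx cr
    have h1 := (isHomogeneous_C (Fin 3) (grd dd G (i + 1))).mul (isHomogeneous_X F (i + 2))
    have h2 := (isHomogeneous_C (Fin 3) (grd dd G (i + 2))).mul (isHomogeneous_X F (i + 1))
    rw [zero_add] at h1 h2
    exact h1.sub h2
  have hbeth : (bet u dd J G b).IsHomogeneous 3 := by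
    unfold bet
    refine IsHomogeneous.sub ?_ ?_
    · have h1 := hb.hb.aeval (fun i => C (aeval u J ^ 2) * gx dd G i) (n := 1) (fun i => by
        have h2 := (isHomogeneous_C (Fin 3) (aeval u J ^ 2 : F)).mul (hgxh i)
        rwa [zero_add] at h2)
      rwa [one_mul] at h1
    · have h1 : (hq (fun i j => C (hes dd G i j)) (gx dd G) (gx dd G)).IsHomogeneous 2 := by
        unfold hq
        refine IsHomogeneous.sum _ _ _ fun i _ => IsHomogeneous.sum _ _ _ fun j _ => ?_
        exact ((isHomogeneous_C _ _).mul (hgxh i)).mul (hgxh j)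
      have h2 : (dp (fun i => C (u i)) (X : Fin 3 → MvPolynomial (Fin 3) F)).IsHomogeneous 1 := by
        unfold dp
        refine IsHomogeneous.sum _ _ _ fun i _ => ?_
        have h3 := (isHomogeneous_C (Fin 3) (u i)).mul (isHomogeneous_X F i)
        rwa [zero_add] at h3
      have h3 := ((isHomogeneous_C (Fin 3) (aeval u J ^ 6 : F)).mul h1).mul h2
      exact h3
  have hBh : B.IsHomogeneous 3 := by
    refine homog_of_map ι hιi B 3 ?_
    rw [hB]
    have h1 := (isHomogeneous_C (Fin 3) (aeval u H / G)).mul hbeth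
    rwa [zero_add] at h1
  -- recovering `b`
  obtain ⟨Y, hY⟩ : ∃ Y : Fin 3 → MvPolynomial (Fin 3) (Bb k u),
      Y = fun i => -cr (fun j => C (uB j)) X i := ⟨_, rfl⟩
  obtain ⟨B', hB'⟩ : ∃ B' : MvPolynomial (Fin 3) (Bb k u), B' = eval₂ C Y B := ⟨_, rfl⟩
  have hmapC : ∀ (R₁ : Type) [CommRing R₁] (f : Bb k u →+* R₁),
      map f B' = eval₂ (C.comp f) (fun i => -cr (fun j => C (f (uB j))) X i) B := by
    intro R₁ _ f
    rw [hB', eval₂_comp_left]
    have e1 : (map f).comp (C : Bb k u →+* MvPolynomial (Fin 3) (Bb k u)) = C.comp f := by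
      ext a
      rw [RingHom.comp_apply, RingHom.comp_apply, map_C]
    have e2 : (map f ∘ Y) = fun i => -cr (fun j => C (f (uB j))) X i := by
      funext i
      show map f (Y i) = _
      rw [hY, map_neg, map_cr]
      simp only [map_C, map_X]
    rw [e1, e2]
  obtain ⟨κ, hκ⟩ : ∃ κ : F, κ = aeval u J ^ 6 * (m : F) ^ 3 * aeval u H * G ^ 2 := ⟨_, rfl⟩
  have hB'F : map ι B' = C κ * b := by
    have h1 := hCNB k F u dd δ j0 c0 J hS m G (by omega) hC.toCrw b hb
    rw [hmapC F ι, ← eval₂_map, hB, eval₂_mul, eval₂_C]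
    simp only [huB]
    have h2 : eval₂ C (fun i => -cr (fun j => C (u j)) X i) (bet u dd J G b) =
        C (aeval u J ^ 6 * (m : F) ^ 3 * G ^ 3) * b := h1
    rw [h2, ← mul_assoc, ← C_mul, hκ]
    congr 2
    field_simp
  -- the shift
  have hshift : ∀ (R₁ : Type) [CommRing R₁] (χ : Bb k u →+* R₁) (ρ : Fin 3 → R₁) (t : R₁),
      eval₂ χ (fun i => ρ i + t * χ (GB i)) B = eval₂ χ ρ B -
        t * χ (m * jB ^ 2 * HB) * hq (fun i j => χ (HH i j)) (cr (fun i => χ (GB i)) ρ)
          (cr (fun i => χ (GB i)) ρ) := by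
    intro R₁ _ χ ρ t
    refine shift_all ι hιi B GB HH (m * jB ^ 2 * HB) ?_ χ ρ t
    intro ρ t
    have h1 := (hCNC k F u dd δ j0 c0 J hS m G (by omega) hC.toCrw b hb).1
      (MvPolynomial (Fin 4) F) ρ (t * C (aeval u J))
    rw [← eval₂_map, ← eval₂_map, hB, eval₂_mul, eval₂_mul, eval₂_C, eval₂_C]
    have h2 : eval₂ C (fun i => ρ i + t * C (aeval u J) * C (dd i G)) (bet u dd J G b) =
        eval₂ C ρ (bet u dd J G b) - t * C (aeval u J) * C (m * G * aeval u J ^ 6) *
          hq (fun i j => C (hes dd G i j)) (cr (fun i => C (dd i G)) ρ)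
            (cr (fun i => C (dd i G)) ρ) := h1
    have e1 : (fun i => ρ i + t * C (ι (GB i))) =
        fun i => ρ i + t * C (aeval u J) * C (dd i G) := by
      funext i
      rw [hGB, C_mul]
      ring
    have e2 : cr (fun i => C (ι (GB i))) ρ =
        fun i => C (aeval u J) * cr (fun i => C (dd i G)) ρ i := by
      funext i
      simp only [hGB, cr, C_mul]
      ring
    have e3 : ∀ a : Fin 3 → MvPolynomial (Fin 4) F,
        hq (fun i j => C (ι (HH i j))) a a = C (aeval u J) ^ 3 *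
          hq (fun i j => C (hes dd G i j)) a a := by
      intro a
      simp only [hq, hHH, hes, C_mul, C_pow, Finset.mul_sum]
      refine Finset.sum_congr rfl fun i _ => Finset.sum_congr rfl fun j _ => ?_
      ring
    rw [e1, h2, e2, e3, hq_smul]
    have e4 : ι (m * jB ^ 2 * HB) = m * aeval u J ^ 2 * aeval u H := by
      rw [map_mul, map_mul, map_pow, hjB, hHB, map_natCast]
    rw [e4]
    have e5 : (C (aeval u H / G) : MvPolynomial (Fin 4) F) * C (m * G * aeval u J ^ 6) =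
        C (m * aeval u J ^ 2 * aeval u H) * C (aeval u J) ^ 4 := by
      rw [← C_mul, ← C_pow, ← C_mul]
      congr 1
      field_simp
    have h3 : ∀ q1 : MvPolynomial (Fin 4) F,
        (C (aeval u H / G) : MvPolynomial (Fin 4) F) * (t * C (aeval u J) *
          C (m * G * aeval u J ^ 6) * q1) = t * C (m * aeval u J ^ 2 * aeval u H) *
          (C (aeval u J) ^ 3 * (C (aeval u J) ^ 2 * q1)) := by
      intro q1
      linear_combination (t * C (aeval u J) * q1) * e5
    rw [mul_sub, h3]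
  -- the field of the component
  by_contra hna
  obtain ⟨zB, hzB⟩ : ∃ zB : Bb k u, zB = jB * SB ^ 3 * B'.coeff a := ⟨_, rfl⟩
  have hzn : ¬ Itg k u ((zB : F) / G) := by
    intro h1
    apply hna
    have h2 : (zB : F) = aeval u J * aeval u S ^ 3 * (κ * b.coeff a) := by
      rw [← hιv, hzB, map_mul, map_mul, map_pow, hjB, hSB, ← coeff_map, hB'F, coeff_C_mul]
    rw [h2, hκ] at h1
    have h3 := (Bb k u).smul_mem (show _ ∈ Bb k u from h1) (((m : k) ^ 3)⁻¹)
    have e : ((m : k) ^ 3)⁻¹ • (aeval u J * aeval u S ^ 3 *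
        (aeval u J ^ 6 * (m : F) ^ 3 * aeval u H * G ^ 2 * b.coeff a) / G) =
        aeval u J ^ 7 * aeval u H * aeval u S ^ 3 * G * b.coeff a := by
      rw [Algebra.smul_def, map_inv₀, map_pow, map_natCast]
      field_simp
    rw [e] at h3
    exact h3
  obtain ⟨LL, _, _, π, v, EL, d, hD, hz0⟩ := hDCF k F u dd δ j0 c0 J hS m G (by omega) hC.toCrw
    hC.red zB hzn
  obtain ⟨p, hp⟩ : ∃ p : Bb k u →+* LL, p = (π : Bb k u →+* LL) := ⟨_, rfl⟩
  have hpπ : ∀ x, p x = π x := fun x => by rw [hp]; rfl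
  have hker : ∀ x : Bb k u, Itg k u (ι x / G) → p x = 0 := by
    intro x hx
    rw [hpπ]
    rw [hιv] at hx
    exact hD.ker x hx
  have hpG : p Gb = 0 := by
    apply hker
    rw [hGb, div_self hG0]
    exact (Bb k u).one_mem
  rw [← hpπ, hzB, map_mul, map_mul, map_pow] at hz0
  have hjj : p jB ≠ 0 := left_ne_zero_of_mul (left_ne_zero_of_mul hz0)
  have hSS : p SB ≠ 0 := ne_zero_pow (by norm_num : (3 : ℕ) ≠ 0)
    (right_ne_zero_of_mul (left_ne_zero_of_mul hz0))
  have hBa : p (B'.coeff a) ≠ 0 := right_ne_zero_of_mul hz0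
  have hEu : ∀ i, eu u dd (u i) = u i := hHd.eul
  have hJhm : Hm k (eu u dd) j0 (aeval u J) := Pool.Agent.H19.SFG.hm_homog u _ hEu J j0 hS.Jh
  have hHhm : Hm k (eu u dd) h (aeval u H) := Pool.Agent.H19.SFG.hm_homog u _ hEu H h hHh
  have hShm : Hm k (eu u dd) sg (aeval u S) := Pool.Agent.H19.SFG.hm_homog u _ hEu S sg hC.Sh
  obtain ⟨c, hc⟩ : ∃ c : Fin 3 → LL, c = fun i => p (uB i) := ⟨_, rfl⟩
  obtain ⟨g, hg⟩ : ∃ g : Fin 3 → LL, g = fun i => p (GB i) := ⟨_, rfl⟩
  have hcv : ∀ i, p (uB i) = c i := fun i => by rw [hc]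
  have hgv : ∀ i, p (GB i) = g i := fun i => by rw [hg]
  have hgc : dp g c = 0 := by
    have e1 : dp GB uB = m * jB * Gb := by
      apply hιi
      rw [map_dp, map_mul, map_mul, hjB, hGb, map_natCast]
      simp only [huB, hGB]
      have h1 := hDat.eul
      simp only [dp] at h1 ⊢
      have h2 : ∑ i, aeval u J * dd i G * u i = aeval u J * ∑ i, u i * grd dd G i := by
        rw [Finset.mul_sum]
        refine Finset.sum_congr rfl fun i _ => ?_
        simp only [grd]
        ring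
      rw [h2, h1]
      ring
    have h2 := congrArg p e1
    rw [map_dp, map_mul, hpG, mul_zero] at h2
    rw [hc, hg]
    exact h2
  have hHc : ∀ i, ∑ j, p (HH i j) * c j = (m - 1) * p jB ^ 2 * g i := by
    intro i
    have e1 : ∑ j, HH i j * uB j = (m - 1) * jB ^ 2 * GB i := by
      apply hιi
      rw [map_sum, map_mul, map_mul, map_sub, map_natCast, map_one, map_pow, hjB, hGB]
      have h1 := hDat.hes i
      have h2 : ∑ j, ι (HH i j * uB j) = aeval u J ^ 3 * ∑ j, hes dd G i j * u j := by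
        rw [Finset.mul_sum]
        refine Finset.sum_congr rfl fun j _ => ?_
        rw [map_mul, hHH, huB]
        simp only [hes]
        ring
      rw [h2, h1]
      simp only [grd]
      ring
    have h2 := congrArg p e1
    rw [map_sum, map_mul, map_mul, map_sub, map_natCast, map_one, map_pow] at h2
    simp only [map_mul, hcv, hgv] at h2
    exact h2
  have hqc : hq (fun i j => p (HH i j)) c c = 0 := by
    have e1 : hq (fun i j => p (HH i j)) c c = ∑ i, c i * (∑ j, p (HH i j) * c j) := by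
      unfold hq
      refine Finset.sum_congr rfl fun i _ => ?_
      rw [Finset.mul_sum]
      refine Finset.sum_congr rfl fun j _ => ?_
      ring
    have e2 : ∑ i, c i * ((m - 1) * p jB ^ 2 * g i) = (m - 1) * p jB ^ 2 * dp g c := by
      unfold dp
      rw [Finset.mul_sum]
      refine Finset.sum_congr rfl fun i _ => ?_
      ring
    rw [e1]
    simp only [hHc]
    rw [e2, hgc, mul_zero]
  -- the certificate
  have hcerp : ∀ j, ∃ (N : ℕ) (eB : Fin 3 → Bb k u),
      c j ^ N = ∑ l, p (eB l) * (g l / (p jB * p SB)) := by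
    intro j
    obtain ⟨N, hcert⟩ := hC.cert
    obtain ⟨e, he, hue⟩ := hcert j
    obtain ⟨eB, heB⟩ : ∃ eB : Fin 3 → Bb k u, ∀ l, ι (eB l) = e l :=
      ⟨fun l => ⟨_, (he l).1⟩, fun l => hιv _⟩
    refine ⟨N, eB, ?_⟩
    have hid : jB * SB * uB j ^ N = ∑ l, eB l * GB l := by
      apply hιi
      rw [map_mul, map_mul, map_pow, hjB, hSB, huB, map_sum, mul_assoc, hue, Finset.mul_sum]
      refine Finset.sum_congr rfl fun l _ => ?_
      rw [map_mul, heB, hGB]
      ring
    have hid2 := congrArg p hid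
    rw [map_mul, map_mul, map_pow, map_sum, hcv] at hid2
    have h1 : p jB * p SB * ∑ l, p (eB l) * (g l / (p jB * p SB)) =
        ∑ l, p (eB l * GB l) := by
      rw [Finset.mul_sum]
      refine Finset.sum_congr rfl fun l _ => ?_
      rw [map_mul, hgv]
      field_simp
    rw [← h1] at hid2
    exact mul_left_cancel₀ (mul_ne_zero hjj hSS) hid2
  have hvc : ∀ i, ∃ a : Fin 3 → k, v i = ∑ j, a j • c j := by
    intro i
    obtain ⟨a, bb, hbb, hvb⟩ := hD.lin i
    refine ⟨a, ?_⟩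
    have e1 : bb = ∑ j, a j • uB j := by
      apply hιi
      rw [hιv, hbb, map_sum]
      refine Finset.sum_congr rfl fun j _ => ?_
      rw [← huB j, hι]
      exact (map_smul (Bb k u).val (a j) (uB j)).symm
    rw [hvb, e1, map_sum]
    refine Finset.sum_congr rfl fun j _ => ?_
    rw [map_smul, ← hpπ, hcv]
  obtain ⟨l, hgl⟩ : ∃ l, g l ≠ 0 := by
    by_contra hcon
    push Not at hcon
    have hc0 : ∀ j, c j = 0 := by
      intro j
      obtain ⟨N, eB, h1⟩ := hcerp j
      simp only [hcon, zero_div, mul_zero, Finset.sum_const_zero] at h1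
      by_contra h2
      exact pow_ne_zero N h2 h1
    obtain ⟨a', ha'⟩ := hvc 0
    simp only [hc0, smul_zero, Finset.sum_const_zero] at ha'
    exact hD.hd.ind.ne_zero 0 ha'
  obtain ⟨w, hw⟩ : ∃ w : MvPolynomial (Fin 3) LL, w = dp (fun i => C (g i)) X := ⟨_, rfl⟩
  obtain ⟨ρl, hρl⟩ : ∃ ρl : Fin 3 → LL,
      ρl = fun i => (-(g l)⁻¹) * cr c (Pi.single l 1) i := ⟨_, rfl⟩
  obtain ⟨s, hs⟩ : ∃ s : LL, s = eval₂ p ρl B := ⟨_, rfl⟩
  have hgρ : ∀ i, cr g ρl i = -c i := by
    intro i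
    have e1 : dp g (Pi.single l (1 : LL)) = g l := by
      unfold dp
      rw [Finset.sum_eq_single l]
      · rw [Pi.single_eq_same, mul_one]
      · intro j _ hj
        rw [Pi.single_eq_of_ne hj, mul_zero]
      · intro h0
        exact absurd (Finset.mem_univ l) h0
    rw [hρl, cr_smul, cr_cr, hgc, e1]
    field_simp
    ring
  have hmain : map p B' = w ^ 3 * C s := by
    rw [hmapC LL p]
    obtain ⟨z, hz⟩ : ∃ z : Fin 3 → MvPolynomial (Fin 3) LL,
      z = fun i => -cr (fun j => C (c j)) X i - w * C (ρl i) := ⟨_, rfl⟩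
    have hcρ : ∀ i, cr (fun j => C (g j)) (fun j => C (ρl j)) i =
        (-C (c i) : MvPolynomial (Fin 3) LL) := by
      intro i
      rw [← map_neg, ← hgρ i, map_cr]
    have hcz : ∀ i, cr (fun j => C (g j)) z i = 0 := by
      intro i
      have e1 : cr (fun j => C (g j)) z i =
          -cr (fun j => C (g j)) (cr (fun j => C (c j)) X) i -
            w * cr (fun j => C (g j)) (fun j => C (ρl j)) i := by
        rw [hz]
        simp only [cr]
        ring
      have e2 : dp (fun j => C (g j)) (fun j => C (c j)) = (0 : MvPolynomial (Fin 3) LL) := by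
        rw [← map_dp, hgc, map_zero]
      rw [e1, cr_cr, e2, hcρ, ← hw]
      ring
    have hzi : ∀ i, z i = C (g l)⁻¹ * z l * C (g i) := by
      intro i
      have h1 := cr_prop hcz i l
      have h2 : (C (g l)⁻¹ : MvPolynomial (Fin 3) LL) * C (g l) = 1 := by
        rw [← C_mul, inv_mul_cancel₀ hgl, C_1]
      linear_combination (-z i) * h2 - C (g l)⁻¹ * h1
    have hfun : (fun i => -cr (fun j => C (p (uB j))) X i) =
        fun i => w * C (ρl i) + C (g l)⁻¹ * z l * (C.comp p) (GB i) := by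
      funext i
      have h1 := hzi i
      rw [RingHom.comp_apply, hgv]
      rw [← h1, hz]
      simp only [hcv]
      ring
    rw [hfun, hshift _ (C.comp p) (fun i => w * C (ρl i)) (C (g l)⁻¹ * z l)]
    have e3 : cr (fun i => (C.comp p) (GB i)) (fun i => w * C (ρl i)) =
        fun i => (-w) * (C (c i) : MvPolynomial (Fin 3) LL) := by
      funext i
      rw [cr_smul]
      have e4 : (fun i => (C.comp p) (GB i)) = fun i => (C (g i) : MvPolynomial (Fin 3) LL) := by
        funext i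
        rw [RingHom.comp_apply, hgv]
      rw [e4, hcρ]
      ring
    have e5 : hq (fun i j => (C.comp p) (HH i j)) (fun i => (C (c i) : MvPolynomial (Fin 3) LL))
        (fun i => C (c i)) = 0 := by
      have h1 := congrArg (C : LL →+* MvPolynomial (Fin 3) LL) hqc
      rw [map_hq, map_zero] at h1
      exact h1
    rw [e3, hq_smul, e5, mul_zero, mul_zero, sub_zero, Pool.Agent.H19.SRF.hom_eval₂ hBh, hs]
    congr 1
    exact (eval₂_comp_left (C : LL →+* MvPolynomial (Fin 3) LL) p ρl B).symm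
  have hsing : ∀ (R₁ : Type) [CommRing R₁] (f : Bb k u →+* R₁) (l' : Fin 3),
      f (eval (Pi.single l' 1) B') = eval (Pi.single l' 1) (map f B') := by
    intro R₁ _ f l'
    rw [eval₂_comp, eval_map]
    congr 1
    funext i
    show f ((Pi.single l' (1 : Bb k u) : Fin 3 → Bb k u) i) = _
    by_cases h0 : i = l'
    · rw [h0, Pi.single_eq_same, Pi.single_eq_same, map_one]
    · rw [Pi.single_eq_of_ne h0, Pi.single_eq_of_ne h0, map_zero]
  have hbl1 : ∀ l', p (eval (Pi.single l' 1) B') = g l' ^ 3 * s := by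
    intro l'
    rw [hsing, hmain, map_mul, map_pow, eval_C, hw]
    congr 2
    unfold dp
    rw [map_sum, Finset.sum_eq_single l']
    · rw [map_mul, eval_C, eval_X, Pi.single_eq_same, mul_one]
    · intro j _ hj
      rw [map_mul, eval_C, eval_X, Pi.single_eq_of_ne hj, mul_zero]
    · intro h0
      exact absurd (Finset.mem_univ l') h0
  have hbl2 : ∀ l', Hm k (eu u dd) (6 * j0 + h + 2 * m) (ι (eval (Pi.single l' 1) B')) := by
    intro l'
    rw [hsing, hB'F, map_mul, eval_C, hκ]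
    have h1 := hm_nat (hm_one (eu u dd)) (m ^ 3)
    rw [one_mul] at h1
    push_cast at h1
    have h2 := hm_mul (hm_mul (hm_mul (hm_mul (hm_pow hJhm 6) h1) hHhm) (hm_pow hC.hom 2))
      (hm_eval_single b hb.hm l')
    have e : ((6 : ℕ) : ℤ) * (j0 : ℤ) + 0 + (h : ℤ) + ((2 : ℕ) : ℤ) * (m : ℤ) + 0 =
        6 * (j0 : ℤ) + h + 2 * m := by
      push_cast
      ring
    rw [e] at h2
    exact h2
  have hEL : ∀ (x : Bb k u) (t : ℤ), Hm k (eu u dd) t (ι x) → Hm k EL t (p x) := by
    intro x t hx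
    unfold Hm at hx ⊢
    have h1 := hD.eul x ((t : Bb k u) * x) (by
      rw [← hιv, map_mul, map_intCast, ← hx, hιv])
    rw [hpπ, h1, ← hpπ, ← hpπ, map_mul, map_intCast]
  have hr0 : s * (p jB ^ 3 * p SB ^ 3) = 0 := by
    refine (hNGD k LL 2 d v EL hD.hd).1 (6 * j0 + h + 2 * m + (((3 : ℕ) : ℤ) * (j0 : ℤ) +
      ((3 : ℕ) : ℤ) * (sg : ℤ)) - ((3 : ℕ) : ℤ) * ((j0 : ℤ) + (m - 1))) _
      (by push_cast; omega) ?_ ?_
    · rw [hVRI k LL 2 v le_rfl hD.hd.ind]
      intro o ho
      have hπo : ∀ x, p x ∈ o := fun x => by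
        rw [hpπ]
        exact (hVRI k LL 2 v le_rfl hD.hd.ind (π x)).1 (hD.itg x) o ho
      obtain ⟨i, hvi0, hvi⟩ := ho.unit
      obtain ⟨a', ha'⟩ := hvc i
      obtain ⟨j, hcj, hcji⟩ := nv_unit o ho.con c a' (v i) ha' hvi0 hvi
      obtain ⟨N, eB, hid3⟩ := hcerp j
      obtain ⟨l', hl0, hli, -⟩ := hCLS LL o N (c j) (fun l => p (eB l))
        (fun l => g l / (p jB * p SB))
        hcj hcji (fun l => hπo _) hid3
      have hr : s * (p jB ^ 3 * p SB ^ 3) =
          p (eval (Pi.single l' 1) B') * ((g l' / (p jB * p SB))⁻¹) ^ 3 := by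
        rw [hbl1]
        have h1 : g l' ≠ 0 := by
          intro h0
          exact hl0 (by rw [h0, zero_div])
        field_simp
      rw [hr]
      exact mul_mem (hπo _) (pow_mem hli 3)
    · have hr : s * (p jB ^ 3 * p SB ^ 3) =
          p (eval (Pi.single l 1) B') * (p jB ^ 3 * p SB ^ 3) / g l ^ 3 := by
        rw [hbl1]
        field_simp
      rw [hr]
      have h1 := hEL _ _ (hbl2 l)
      have h2 : Hm k EL j0 (p jB) := hEL jB j0 (by rw [hjB]; exact hJhm)
      have h2' : Hm k EL sg (p SB) := hEL SB sg (by rw [hSB]; exact hShm)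
      have h3 : Hm k EL ((j0 : ℤ) + (m - 1)) (g l) := by
        rw [← hgv]
        refine hEL _ _ ?_
        rw [hGB]
        exact hm_mul hJhm (hdl m G l hC.hom)
      exact hm_div (hm_mul h1 (hm_mul (hm_pow h2 3) (hm_pow h2' 3))) (hm_pow h3 3)
        (pow_ne_zero _ hgl)
  have hs0 : s = 0 := (mul_eq_zero.1 hr0).resolve_right
    (mul_ne_zero (pow_ne_zero _ hjj) (pow_ne_zero _ hSS))
  rw [hs0, C_0, mul_zero] at hmain
  apply hBa
  rw [← coeff_map, hmain, coeff_zero]

end Pool.Agent.H14.S2
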