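import Pool.Agent.H14.S2.DCF1

/-!
# An integral element which is not divisible by `G` is not zero on some component (DCF)
-/

set_option autoImplicit false

namespace Pool.Agent.H14.S2

open MvPolynomial SC Pool.Agent.H27.LV Pool.Agent.H92.SF Pool.Agent.H3.SF
open Pool.Agent.H3.S2 (Crw Dcf T_DCF)
open Pool.Agent.H91.SFD
open Pool.Agent.H91.SFH (coe_aeval map_ae itg_third)
open Pool.Agent.H49.SFH (exists_der)
open Pool.Agent.H30.SFH (crvI quot_field)

section

variable {k F LL : Type} [Field k] [IsAlgClosed k] [CharZero k] [Field F] [Algebra k F]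
  [Field LL] [Algebra k LL]

/-- the Euler derivation of the component -/
theorem exists_eul (h1 : T_SF1) {u : Fin 3 → F} {dd : Fin 3 → Derivation k F F} {δ j0 c0 : ℕ}
    {J : MvPolynomial (Fin 3) k} (hS : Sfc u dd δ j0 c0 J) {m : ℕ} {G : F} (hG : Crw u dd m G)
    {p : Ideal (Bb k u)} (hpP : p.IsPrime) (hIp : crvI (k := k) u G ≤ p)
    (hkey : ∀ a ∈ p, ∃ f, f ∉ p ∧ a * f ∈ crvI (k := k) u G) (π : Bb k u →ₐ[k] LL)
    (hπ : ∀ b, π b = 0 ↔ b ∈ p) (hsur : ∀ z : LL, ∃ b c : Bb k u, π c ≠ 0 ∧ z * π c = π b) :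
    ∃ EL : Derivation k LL LL, ∀ b b' : Bb k u, (b' : F) = eu u dd b → EL (π b) = π b' := by
  have hit := (h1 k F u dd δ j0 c0 J hS).2.2.2.2.1
  have hL : ∀ a b : Bb k u, (eu u dd) ((a : F) * (b : F)) =
      (a : F) * eu u dd (b : F) + (b : F) * eu u dd (a : F) := by
    intro a b
    rw [Derivation.leibniz]
    rfl
  set D0 : Derivation k (Bb k u) (Bb k u) := Derivation.mk'
    { toFun := fun b => ⟨eu u dd (b : F), hit _ b.2⟩
      map_add' := fun a b => Subtype.ext (map_add (eu u dd) (a : F) (b : F))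
      map_smul' := fun r b => Subtype.ext ((eu u dd).map_smul r (b : F)) }
    (fun a b => Subtype.ext (hL a b)) with hD0
  have hD : ∀ b : Bb k u, ((D0 b : Bb k u) : F) = eu u dd (b : F) := fun b => rfl
  have hstab : ∀ b ∈ crvI (k := k) u G, D0 b ∈ crvI (k := k) u G := by
    intro b hb
    have hb' : Itg k u ((b : F) / G) := hb
    show Itg k u ((D0 b : F) / G)
    rw [hD]
    have h2 : (b : F) = G * ((b : F) / G) := (mul_div_cancel₀ _ hG.ne).symm
    have h3 : eu u dd (b : F) / G = (m : F) * ((b : F) / G) + eu u dd ((b : F) / G) := by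
      have h4 := hG.hom
      unfold Hm at h4
      have h5 : eu u dd (b : F) = G * eu u dd ((b : F) / G) + ((b : F) / G) * eu u dd G := by
        conv_lhs => rw [h2]
        rw [Derivation.leibniz]
        rfl
      rw [h5, h4]
      have := hG.ne
      push_cast
      field_simp
      ring
    rw [h3]
    exact (Bb k u).add_mem ((Bb k u).mul_mem (natCast_mem (Bb k u) m) hb') (hit _ hb')
  obtain ⟨EL, hEL⟩ := exists_der D0 π (fun b hb => by
    rw [hπ] at hb ⊢
    obtain ⟨f, hf, hbf⟩ := hkey b hb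
    have h2 := hIp (hstab _ hbf)
    rw [D0.leibniz, smul_eq_mul, smul_eq_mul] at h2
    have h3 : f * D0 b ∈ p := (p.add_mem_iff_right (p.mul_mem_right _ hb)).mp h2
    exact (hpP.mem_or_mem h3).resolve_left hf) hsur
  refine ⟨EL, fun b b' hb => ?_⟩
  rw [hEL b]
  exact congrArg π (Subtype.ext ((hD b).trans hb.symm))

/-- two linear forms over which the restrictions are integral -/
theorem exists_lin (h1 : T_SF1) (h2 : T_NGD) (h3 : T_NDV) (h4 : T_SAT) {u : Fin 3 → F}
    {dd : Fin 3 → Derivation k F F} {δ j0 c0 : ℕ}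
    {J : MvPolynomial (Fin 3) k} (hS : Sfc u dd δ j0 c0 J) {m : ℕ} {G : F}
    (hG : Crw u dd m G) {p : Ideal (Bb k u)} (hIp : crvI (k := k) u G ≤ p)
    (hkey : ∀ a ∈ p, ∃ f, f ∉ p ∧ a * f ∈ crvI (k := k) u G) (π : Bb k u →ₐ[k] LL)
    (hπ : ∀ b, π b = 0 ↔ b ∈ p) : ∃ v : Fin 2 → LL, AlgebraicIndependent k v ∧
    (∀ i, ∃ (a : Fin 3 → k) (b : Bb k u), (b : F) = ∑ j, a j • u j ∧ v i = π b) ∧
    ∀ b : Bb k u, Itg k v (π b) := by
  obtain ⟨hd, hUi, hUp, -⟩ := h1 k F u dd δ j0 c0 J hS
  obtain ⟨N, hN, hnorm, hN0⟩ := (h2 k F 3 δ u (eu u dd) hd).2 m G hG.itg hG.hom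
  have hNG := h3 k F 3 δ u (eu u dd) hd G hG.ne hG.itg
  rw [hnorm] at hNG
  obtain ⟨α, hα, h0⟩ := exists_dir hN (hN0 hG.ne)
  let U : Fin 3 → Bb k u := fun i => ⟨u i, hUi i⟩
  have hU : ∀ p : MvPolynomial (Fin 3) k, ((aeval U p : Bb k u) : F) = aeval u p := fun p =>
    coe_aeval U p
  have hy : aeval (fun i => π (U i)) N = 0 := by
    rw [← map_ae, hπ]
    apply hIp
    show Itg k u ((aeval U N : Bb k u) / G)
    rw [hU]
    exact hNG
  let w : Fin 2 → Bb k u := ![U 0 - algebraMap k _ (α 0) * U 2, U 1 - algebraMap k _ (α 1) * U 2]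
  have hw : (fun i => π (w i)) = ![π (U 0) - algebraMap k LL (α 0) * π (U 2),
      π (U 1) - algebraMap k LL (α 1) * π (U 2)] := by
    funext i
    fin_cases i <;> simp [w]
  have hz : Itg k (fun i => π (w i)) (π (U 2)) := by
    rw [hw]
    exact itg_third hN hα h0 (fun i => π (U i)) hy
  have hw' : ∀ i, Itg k (fun i => π (w i)) (π (w i)) := fun i => by
    have := itg_aev (k := k) (fun i => π (w i)) (X i)
    rwa [aeval_X] at this
  have hUw : ∀ i, π (U i) ∈ Bb k (fun i => π (w i)) := by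
    have hc : ∀ c : k, algebraMap k LL c ∈ Bb k (fun i => π (w i)) := fun c =>
      (Bb k _).algebraMap_mem c
    have hz' : π (U 2) ∈ Bb k (fun i => π (w i)) := hz
    have h5 : ∀ i : Fin 2, π (w i) ∈ Bb k (fun i => π (w i)) := hw'
    have e0 : π (w 0) = π (U 0) - algebraMap k LL (α 0) * π (U 2) := congrFun hw 0
    have e1 : π (w 1) = π (U 1) - algebraMap k LL (α 1) * π (U 2) := congrFun hw 1
    intro i
    fin_cases i
    · have := (Bb k _).add_mem (h5 0) ((Bb k _).mul_mem (hc (α 0)) hz')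
      rw [e0, sub_add_cancel] at this
      exact this
    · have := (Bb k _).add_mem (h5 1) ((Bb k _).mul_mem (hc (α 1)) hz')
      rw [e1, sub_add_cancel] at this
      exact this
    · exact hz'
  refine ⟨fun i => π (w i), ?_, ?_, ?_⟩
  · rw [algebraicIndependent_iff]
    intro q hq
    by_contra hq0
    have h5 : aeval w q ∈ p := by
      rw [← hπ, map_ae]
      exact hq
    obtain ⟨f, hf, hqf⟩ := hkey _ h5
    have h6' : Itg k u (((aeval w q * f : Bb k u) : F) / G) := hqf
    set q' : MvPolynomial (Fin 3) k := aeval ![X 0 - C (α 0) * X 2, X 1 - C (α 1) * X 2] q with hq'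
    have h6 : ((aeval w q : Bb k u) : F) = aeval u q' := by
      rw [coe_aeval, hq', map_ae]
      have h7 : (fun i => (w i : F)) = fun i => aeval u
          ((![X 0 - C (α 0) * X 2, X 1 - C (α 1) * X 2] : Fin 2 → MvPolynomial (Fin 3) k) i) := by
        funext i
        fin_cases i
        · simp [w, U]
        · simp [w, U]
      rw [h7]
    have h7 : Itg k u (aeval u q' * ((f : F) / G)) := by
      have e1 : aeval u q' * ((f : F) / G) = ((aeval w q * f : Bb k u) : F) / G := by
        rw [← h6]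
        push_cast
        ring
      rw [e1]
      exact h6'
    have h8 : Itg k u (aeval u N * ((f : F) / G)) := by
      have e1 : aeval u N * ((f : F) / G) = (aeval u N / G) * (f : F) := by ring
      rw [e1]
      exact (Bb k u).mul_mem hNG f.2
    have h9 := h4 k F 3 u hS.ind q' N (relPrime_aux hN hα h0 hq0) _ h7 h8
    exact hf (hIp h9)
  · intro i
    fin_cases i
    · refine ⟨![1, 0, -α 0], w 0, ?_, rfl⟩
      simp [w, U, Fin.sum_univ_three, Algebra.smul_def]
      ring
    · refine ⟨![0, 1, -α 1], w 1, ?_, rfl⟩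
      simp [w, U, Fin.sum_univ_three, Algebra.smul_def]
      ring
  · intro b
    obtain ⟨P, hP, hPe⟩ := b.2
    have h5 : P.eval₂ ((aeval U : MvPolynomial (Fin 3) k →ₐ[k] Bb k u) :
        MvPolynomial (Fin 3) k →+* Bb k u) b = 0 := by
      apply Subtype.ext
      have h := Polynomial.hom_eval₂ P ((aeval U : MvPolynomial (Fin 3) k →ₐ[k] Bb k u) :
        MvPolynomial (Fin 3) k →+* Bb k u) ((Bb k u).val : Bb k u →+* F) b
      have h4 : (((Bb k u).val : Bb k u →+* F)).comp ((aeval U : MvPolynomial (Fin 3) k →ₐ[k]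
          Bb k u) : MvPolynomial (Fin 3) k →+* Bb k u) =
          ((aeval u : MvPolynomial (Fin 3) k →ₐ[k] F) : MvPolynomial (Fin 3) k →+* F) :=
        RingHom.ext fun p => hU p
      rw [h4] at h
      exact h.trans hPe
    have h6 := congrArg π h5
    rw [Polynomial.eval₂_eq_sum_range, Finset.sum_range_succ, hP.coeff_natDegree, map_zero,
      map_one, one_mul, map_add, map_sum, map_pow, add_comm] at h6
    rw [Pool.Agent.H62.HIL.itg_iff]
    refine Pool.Agent.H62.HIL.itg_of_relation P.natDegree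
      (fun i => π (aeval U (P.coeff i))) (fun i hi => ?_) ?_
    · show Pool.Agent.H62.HIL.Itg k (fun i => π (w i)) (π (aeval U (P.coeff i)))
      rw [← Pool.Agent.H62.HIL.itg_iff, map_ae]
      have h7 : aeval (fun i => π (U i)) (P.coeff i) ∈ Algebra.adjoin k
        (Set.range fun i => π (U i)) := Pool.Agent.H62.HIL.aeval_mem _ _
      have h8 : Algebra.adjoin k (Set.range fun i => π (U i)) ≤ Bb k (fun i => π (w i)) := by
        rw [Algebra.adjoin_le_iff]
        rintro x ⟨i, rfl⟩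
        exact hUw i
      exact h8 h7
    · rw [← h6]
      congr 1
      refine Finset.sum_congr rfl fun i _ => ?_
      rw [map_mul, map_pow]
      rfl

end

theorem pf_DCF (hSF1 : T_SF1) (hNGD : T_NGD) (hNDV : T_NDV) (hSAT : T_SAT) : T_DCF := by
  intro k F _ _ _ _ _ u dd δ j0 c0 J hS m G hm hG hred z hz
  have hIr : (crvI (k := k) u G).IsRadical := by
    rw [Ideal.isRadical_iff_pow_one_lt 2 one_lt_two]
    intro b hb
    rw [pow_two] at hb
    have h2 : Itg k u (((b * b : Bb k u) : F) / G) := hb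
    exact hred (b : F) b.2 h2
  have hzI : z ∉ crvI (k := k) u G := hz
  obtain ⟨p0, hp0, hIp0, hzp0⟩ : ∃ p0 : Ideal (Bb k u), p0.IsPrime ∧ crvI (k := k) u G ≤ p0 ∧
      z ∉ p0 := by
    by_contra hcon
    push Not at hcon
    apply hzI
    apply hIr
    rw [Ideal.radical_eq_sInf, Ideal.mem_sInf]
    intro q hq
    exact hcon q hq.2 hq.1
  obtain ⟨p, hp, hpp0⟩ := Ideal.exists_minimalPrimes_le hIp0
  have hzp : z ∉ p := fun h => hzp0 (hpp0 h)
  have hpP : p.IsPrime := hp.1.1
  have hIp : crvI (k := k) u G ≤ p := hp.1.2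
  have hkey : ∀ a ∈ p, ∃ f, f ∉ p ∧ a * f ∈ crvI (k := k) u G :=
    fun a ha => exists_notMem_mul_mem hIr hp ha
  obtain ⟨LL, i1, i2, π, hπ, hsur⟩ := quot_field k (Bb k u) p hpP
  obtain ⟨EL, hEL⟩ := exists_eul hSF1 hS hG hpP hIp hkey π hπ hsur
  obtain ⟨v, hv, hlin, hint⟩ := exists_lin hSF1 hNGD hNDV hSAT hS hG hIp hkey π hπ
  have hfd : FiniteDimensional (kF k u) F := Module.finite_of_finrank_pos (by
    have := hS.rank
    have := hS.pos
    omega)
  have := fin_dim hS.ind hfd π hsur v hint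
  refine ⟨LL, i1, i2, π, v, EL, Module.finrank (kF k v) LL, ?_, ?_⟩
  · refine ⟨⟨hv, rfl, Module.finrank_pos, ?_⟩, ?_, hsur, hlin, hint, hEL⟩
    · intro i
      obtain ⟨a, b, hb, hvb⟩ := hlin i
      have he : eu u dd (b : F) = b := by
        have h5 : ∀ j, eu u dd (u j) = u j := by
          intro j
          unfold eu
          rw [Fin.sum_univ_three]
          simp only [Derivation.add_apply, Derivation.smul_apply, hS.du, smul_eq_mul]
          fin_cases j <;> simp
        rw [hb, map_sum]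
        refine Finset.sum_congr rfl fun j _ => ?_
        rw [Derivation.map_smul, h5]
      rw [hvb, hEL b b he.symm]
    · intro b hb
      rw [hπ]
      exact hIp hb
  · rw [Ne, hπ]
    exact hzp

end Pool.Agent.H14.S2
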