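import Pool.Agent.H3.S2.Tg
import Pool.Agent.H91.SFH.DC3
import Pool.Agent.H56.SFH.DC4
import Pool.Agent.H49.SFH.DC2
import Pool.Agent.H30.SFH.DC1
import Pool.Agent.H96.SM.IRR

/-!
# The components of a reduced curve: lemmas
-/

set_option autoImplicit false

namespace Pool.Agent.H14.S2

open MvPolynomial SC Pool.Agent.H27.LV Pool.Agent.H92.SF Pool.Agent.H3.SF
open Pool.Agent.H91.SFD
open Pool.Agent.H91.SFH (coe_aeval map_ae itg_third)
open Pool.Agent.H56.SFH (fin_gen)
open scoped IntermediateField.algebraAdjoinAdjoin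

/-- an element of a minimal prime ideal of a radical ideal -/
theorem exists_notMem_mul_mem {R : Type} [CommRing R] {I p : Ideal R} (hI : I.IsRadical)
    (hp : p ∈ I.minimalPrimes) {a : R} (ha : a ∈ p) : ∃ f, f ∉ p ∧ a * f ∈ I := by
  have hpp : p.IsPrime := hp.1.1
  by_contra hcon
  push Not at hcon
  let M : Submonoid R := Submonoid.powers a ⊔ p.primeCompl
  have hdis : Disjoint (I : Set R) (M : Set R) := by
    rw [Set.disjoint_left]
    intro x hxI hxM
    obtain ⟨y, hy, s, hs, rfl⟩ := Submonoid.mem_sup.mp hxM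
    obtain ⟨n, rfl⟩ := hy
    have h1 : a * s ∈ I := by
      apply hI
      refine ⟨n + 1, ?_⟩
      have h2 : (a * s) ^ (n + 1) = (a * s ^ n) * (a ^ n * s) := by ring
      rw [h2]
      exact I.mul_mem_left _ hxI
    exact hcon s hs h1
  obtain ⟨q, hq, hIq, hqd⟩ := Ideal.exists_le_prime_disjoint I M hdis
  have hqp : q ≤ p := by
    intro x hx
    by_contra hxp
    exact Set.disjoint_left.mp hqd hx (Submonoid.mem_sup_right hxp)
  have hpq : p ≤ q := hp.2 ⟨hq, hIq⟩ hqp
  exact Set.disjoint_left.mp hqd (hpq ha) (Submonoid.mem_sup_left ⟨1, pow_one a⟩)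

/-- a polynomial in two coordinates is prime to `N` -/
theorem relPrime_aux {k : Type} [Field k] [Infinite k] {e : ℕ}
    {N : MvPolynomial (Fin 3) k} (hN : N.IsHomogeneous e) {α : Fin 3 → k} (hα : α 2 = 1)
    (h0 : eval α N ≠ 0) {q : MvPolynomial (Fin 2) k} (hq : q ≠ 0) :
    IsRelPrime (aeval ![X 0 - C (α 0) * X 2, X 1 - C (α 1) * X 2] q :
      MvPolynomial (Fin 3) k) N := by
  intro r hrq hrN
  obtain ⟨x, hx⟩ : ∃ x, eval x q ≠ 0 := by
    by_contra hcon
    push Not at hcon
    exact hq (MvPolynomial.funext fun x => by rw [hcon x, map_zero])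
  let y : Fin 3 → k := ![x 0, x 1, 0]
  let Φ : MvPolynomial (Fin 3) k →ₐ[k] Polynomial k := aeval (fun i => Polynomial.C (y i) +
    Polynomial.C (algebraMap k k (α i)) * Polynomial.X)
  have h2 : Φ (aeval ![X 0 - C (α 0) * X 2, X 1 - C (α 1) * X 2] q) =
      Polynomial.C (eval x q) := by
    rw [map_ae]
    have h3 : (fun i => Φ ((![X 0 - C (α 0) * X 2, X 1 - C (α 1) * X 2] :
        Fin 2 → MvPolynomial (Fin 3) k) i)) = fun i => Polynomial.C (x i) := by
      funext i
      fin_cases i
      · simp [Φ, y, hα, Polynomial.algebraMap_eq]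
      · simp [Φ, y, hα, Polynomial.algebraMap_eq]
    rw [h3]
    have h4 := map_ae (Algebra.ofId k (Polynomial k)) x q
    have h5 : (fun i => Algebra.ofId k (Polynomial k) (x i)) = fun i => Polynomial.C (x i) := rfl
    rw [h5] at h4
    rw [← h4]
    have h6 : (aeval x q : k) = eval x q := rfl
    rw [h6]
    rfl
  obtain ⟨s, hs⟩ := hrN
  have hN0 : N ≠ 0 := by
    intro h
    rw [h, map_zero] at h0
    exact h0 rfl
  have hr0 : r ≠ 0 := by
    intro h
    rw [h, zero_mul] at hs
    exact hN0 hs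
  have hs0 : s ≠ 0 := by
    intro h
    rw [h, mul_zero] at hs
    exact hN0 hs
  rw [hs] at hN h0
  obtain ⟨b, c, -, hrb, -⟩ := Pool.Agent.H96.SM.homog_mul hN hr0 hs0
  have h1 := wd_subst (R := k) hrb y α
  have h8 : IsUnit (Φ r) := by
    refine isUnit_of_dvd_unit (map_dvd Φ hrq) ?_
    rw [h2]
    exact Polynomial.isUnit_C.mpr (isUnit_iff_ne_zero.mpr hx)
  have h9 := Polynomial.natDegree_eq_zero_of_isUnit h8
  have h12 : eval α r ≠ 0 := by
    intro h
    apply h0
    rw [map_mul, h, zero_mul]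
  have h10 : (Φ r).coeff b = eval α r := h1.2
  have h11 : b ≤ (Φ r).natDegree := Polynomial.le_natDegree_of_ne_zero (by rw [h10]; exact h12)
  have hb : b = 0 := by omega
  subst hb
  have h13 : r = C (coeff 0 r) := totalDegree_eq_zero_iff_eq_C.mp (hrb.totalDegree hr0)
  rw [h13]
  refine IsUnit.map C (isUnit_iff_ne_zero.mpr ?_)
  intro h
  rw [h, C_0] at h13
  exact hr0 h13

/-- the restrictions generate a finite extension -/
theorem fin_dim {k F : Type} [Field k] [CharZero k] [Field F] [Algebra k F] {u : Fin 3 → F}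
    (hu : AlgebraicIndependent k u) (hfd : FiniteDimensional (kF k u) F) {LL : Type} [Field LL]
    [Algebra k LL] (π : Bb k u →ₐ[k] LL)
    (hsur : ∀ z : LL, ∃ b c : Bb k u, π c ≠ 0 ∧ z * π c = π b) (v : Fin 2 → LL)
    (hint : ∀ b : Bb k u, Itg k v (π b)) : FiniteDimensional (kF k v) LL := by
  have := hfd
  obtain ⟨s, hs1, hs2⟩ := fin_gen hu
  set X : Set (Bb k u) := {b : Bb k u | (b : F) ∈ (s : Set F) ∪ Set.range u} with hX
  have hXf : X.Finite := by
    refine Set.Finite.preimage (Subtype.val_injective.injOn) ?_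
    exact s.finite_toSet.union (Set.finite_range u)
  set S : Set LL := π '' X with hSd
  have : Finite S := (hXf.image π)
  set M : IntermediateField (kF k v) LL := IntermediateField.adjoin (kF k v) S with hM
  have hMf : FiniteDimensional (kF k v) M := by
    refine IntermediateField.finiteDimensional_adjoin fun x hx => ?_
    obtain ⟨b, -, rfl⟩ := hx
    have h2 : IsIntegral (Algebra.adjoin k (Set.range v)) (π b) :=
      Pool.Agent.H62.HIL.itg_iff.1 (hint b)
    exact h2.tower_top
  set T : Subalgebra k (Bb k u) :=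
    Subalgebra.comap π ((M.restrictScalars k).toSubalgebra) with hT
  set T' : Subalgebra k F := T.map (Bb k u).val with hT'
  have hX' : ∀ b ∈ X, π b ∈ M := fun b hb => IntermediateField.subset_adjoin _ _ ⟨b, hb, rfl⟩
  have hu : ∀ j, u j ∈ T' := by
    intro j
    have h2 : Pool.Agent.H3.SF.Itg k u (u j) :=
      Pool.Agent.H62.HIL.itg_iff.2 (Pool.Agent.H62.HIL.itg_var u j)
    exact ⟨⟨u j, h2⟩, hX' _ (Or.inr ⟨j, rfl⟩), rfl⟩
  have hA : Algebra.adjoin k (Set.range u) ≤ T' := by
    refine Algebra.adjoin_le ?_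
    rintro _ ⟨j, rfl⟩
    exact hu j
  have hs' : ∀ x ∈ s, x ∈ T' := fun x hx => ⟨⟨x, hs1 x hx⟩, hX' _ (Or.inl hx), rfl⟩
  have hspan : ∀ b ∈ Submodule.span (Algebra.adjoin k (Set.range u)) (s : Set F), b ∈ T' := by
    intro b hb
    induction hb using Submodule.span_induction with
    | mem x hx => exact hs' x hx
    | zero => exact T'.zero_mem
    | add x y _ _ hx hy => exact T'.add_mem hx hy
    | smul a x _ hx =>
      rw [Algebra.smul_def]
      exact T'.mul_mem (hA a.2) hx
  have hall : ∀ b : Bb k u, π b ∈ M := by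
    intro b
    obtain ⟨b', hb', hbb⟩ := hspan b (hs2 b b.2)
    have h2 : b' = b := Subtype.ext hbb
    rw [← h2]
    exact hb'
  have htop : M = ⊤ := by
    rw [eq_top_iff]
    intro z _
    obtain ⟨b, c, hc, hz⟩ := hsur z
    have h2 : z = π b / π c := by
      rw [eq_div_iff hc]
      exact hz
    rw [h2]
    exact div_mem (hall b) (hall c)
  rw [htop] at hMf
  exact Module.Finite.equiv (IntermediateField.topEquiv (F := kF k v) (E := LL)).toLinearEquiv

end Pool.Agent.H14.S2
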